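import Pool.Agent.W759.TR.Defs

/-! TR-T12: two neighbours have equal labels with small probability. -/

namespace Pool.Agent.W513.TR

open MeasureTheory ProbabilityTheory Set
open scoped ENNReal
open Pool.Agent.W759.TR

theorem lab_singleton (c : Lab) : lab {c} = (96 : ℝ≥0∞)⁻¹ := by
  unfold lab
  rw [uniformOn_univ, Measure.count_singleton, Fintype.card_fin, one_div]
  norm_num

theorem PU_eq (V : Type) (u u' : V) (h : u ≠ u') :
    PU V {U | U u = U u'} ≤ (96 : ℝ≥0∞)⁻¹ := by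
  classical
  have hsub : {U : V → Lab | U u = U u'} ⊆
      ⋃ c ∈ (Finset.univ : Finset Lab), Set.pi (({u, u'} : Finset V) : Set V) (fun _ => ({c} : Set Lab)) := by
    intro U hU
    have hU' : U u = U u' := hU
    rw [Set.mem_iUnion₂]
    refine ⟨U u, Finset.mem_univ _, ?_⟩
    intro i hi
    rw [Finset.mem_coe, Finset.mem_insert, Finset.mem_singleton] at hi
    rcases hi with rfl | rfl
    · rfl
    · exact hU'.symm
  have hc : ∀ c : Lab, PU V (Set.pi (({u, u'} : Finset V) : Set V) (fun _ => ({c} : Set Lab))) =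
      (96 : ℝ≥0∞)⁻¹ * (96 : ℝ≥0∞)⁻¹ := by
    intro c
    unfold PU
    rw [Measure.infinitePi_pi _ (fun i _ => measurableSet_singleton c), Finset.prod_pair h,
      lab_singleton]
  calc PU V {U | U u = U u'}
      ≤ PU V (⋃ c ∈ (Finset.univ : Finset Lab),
          Set.pi (({u, u'} : Finset V) : Set V) (fun _ => ({c} : Set Lab))) := measure_mono hsub
    _ ≤ ∑ c : Lab, PU V (Set.pi (({u, u'} : Finset V) : Set V) (fun _ => ({c} : Set Lab))) :=
        measure_biUnion_finset_le _ _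
    _ = ∑ c : Lab, (96 : ℝ≥0∞)⁻¹ * (96 : ℝ≥0∞)⁻¹ := Finset.sum_congr rfl (fun c _ => hc c)
    _ = (96 : ℝ≥0∞)⁻¹ := by
        rw [Finset.sum_const, Finset.card_univ, Fintype.card_fin, nsmul_eq_mul, ← mul_assoc,
          Nat.cast_ofNat, ENNReal.mul_inv_cancel (by norm_num) (by norm_num), one_mul]

theorem t12 : T12 := by
  classical
  intro hH0 hT2 hT1 v
  have : ∀ k : Key × (FreeGroup (Fin 2) × ℕ),
      IsProbabilityMeasure (Pool.Agent.W759.FD.house (k.1.1.1 + 1)) :=
    fun k => hH0.1 _ (Nat.succ_pos _)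
  have hPH : IsProbabilityMeasure (PH (FreeGroup (Fin 2))) := by
    unfold PH
    infer_instance
  have hcount : Countable (FreeGroup (Fin 2)) := inferInstance
  have hmeas := hT2 (FreeGroup (Fin 2)) G4 univ
  have hone : ∀ u u' : FreeGroup (Fin 2), u ≠ u' →
      muT G4 {x | (x u).1 = (x u').1} ≤ (96 : ℝ≥0∞)⁻¹ := by
    intro u u' huu
    have hms : MeasurableSet {x : FreeGroup (Fin 2) → S1 | (x u).1 = (x u').1} := by
      apply measurableSet_eq_fun
      · exact measurable_fst.comp (measurable_pi_apply u)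
      · exact measurable_fst.comp (measurable_pi_apply u')
    unfold muT
    rw [Measure.map_apply hmeas hms]
    have hpre : (XC G4 univ) ⁻¹' {x : FreeGroup (Fin 2) → S1 | (x u).1 = (x u').1} =
        {U : FreeGroup (Fin 2) → Lab | U u = U u'} ×ˢ univ := by
      ext ω
      simp [XC]
    rw [hpre]
    unfold PE
    rw [Measure.prod_prod, measure_univ, mul_one]
    exact PU_eq _ u u' huu
  have hfin : (G4.neighborSet v).Finite := by
    apply Set.finite_of_ncard_ne_zero
    rw [hT1.2 v]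
    norm_num
  have hcard : hfin.toFinset.card = 4 := by
    rw [← Set.ncard_eq_toFinset_card _ hfin]
    exact hT1.2 v
  have hsub : {x : FreeGroup (Fin 2) → S1 | ∃ u u', G4.Adj v u ∧ G4.Adj v u' ∧ u ≠ u' ∧
      (x u).1 = (x u').1} ⊆
      ⋃ p ∈ hfin.toFinset.offDiag, {x : FreeGroup (Fin 2) → S1 | (x p.1).1 = (x p.2).1} := by
    rintro x ⟨u, u', hu, hu', hne, hx⟩
    rw [Set.mem_iUnion₂]
    refine ⟨(u, u'), ?_, hx⟩
    rw [Finset.mem_offDiag, Set.Finite.mem_toFinset, Set.Finite.mem_toFinset]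
    exact ⟨hu, hu', hne⟩
  calc muT G4 {x | ∃ u u', G4.Adj v u ∧ G4.Adj v u' ∧ u ≠ u' ∧ (x u).1 = (x u').1}
      ≤ muT G4 (⋃ p ∈ hfin.toFinset.offDiag, {x | (x p.1).1 = (x p.2).1}) := measure_mono hsub
    _ ≤ ∑ p ∈ hfin.toFinset.offDiag, muT G4 {x | (x p.1).1 = (x p.2).1} :=
        measure_biUnion_finset_le _ _
    _ ≤ ∑ p ∈ hfin.toFinset.offDiag, (96 : ℝ≥0∞)⁻¹ := by
        refine Finset.sum_le_sum (fun p hp => hone p.1 p.2 ?_)
        exact (Finset.mem_offDiag.mp hp).2.2
    _ = 12 * (96 : ℝ≥0∞)⁻¹ := by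
        rw [Finset.sum_const, Finset.offDiag_card, hcard, nsmul_eq_mul]
        norm_num
    _ ≤ 1 / 8 := by
        have h1 : (96 : ℝ≥0∞) = 12 * 8 := by norm_num
        rw [h1, ENNReal.mul_inv (Or.inl (by norm_num)) (Or.inl (by norm_num)), ← mul_assoc,
          ENNReal.mul_inv_cancel (by norm_num) (by norm_num), one_mul, one_div]

end Pool.Agent.W513.TR
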